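import Pool.Agent.Lib.HS95.Lim
import Pool.Agent.Lib.RB.B_RON

/-! Compactness in the mean: a bounded family with gradients bounded in the mean is a Cauchy
family in the mean along every ultrafilter. -/

open scoped Topology ENNReal NNReal ContDiff ComplexOrder Matrix
open Set Filter Metric MeasureTheory

noncomputable section

namespace Pool.Agent.Lib.HW95

open Pool.Agent.Lib.HS95.Lim

section euc

variable {V : Type*} [NormedAddCommGroup V] [NormedSpace ℝ V] [FiniteDimensional ℝ V]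
  [MeasurableSpace V] [BorelSpace V] {μ : Measure V} [μ.IsAddHaarMeasure]
  {J : Type*} (l : Ultrafilter J) {C : ℝ} {D : ℝ≥0∞}

theorem relG {w : J → V → ℝ} {K : Set V} (hK : IsCompact K) (hw : ∀ j, ContDiff ℝ 1 (w j))
    (hc : ∀ j, HasCompactSupport (w j)) (hb : ∀ j z, ‖w j z‖ ≤ C) (hD : D ≠ ⊤)
    (hd : ∀ j, ∫⁻ z, ‖fderiv ℝ (w j) z‖ₑ ∂μ ≤ D) :
    Tendsto (fun p : J × J => ∫⁻ z in K, ‖w p.1 z - w p.2 z‖ₑ ∂μ) (l ×ˢ l) (𝓝 0) := by
  have hμ : μ K ≠ ⊤ := hK.measure_lt_top.ne
  have t : Tendsto (fun δ : ℝ => ENNReal.ofReal δ * (D + μ K + D)) (𝓝[>] 0) (𝓝 0) := by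
    have := ENNReal.Tendsto.mul_const (b := D + μ K + D)
      (ENNReal.tendsto_ofReal (tendsto_nhdsWithin_of_tendsto_nhds (a := 0) (s := Ioi (0 : ℝ)) tendsto_id))
      (Or.inr (by finiteness))
    simpa using this
  refine ENNReal.tendsto_nhds_zero.2 fun ε hε => ?_
  obtain ⟨δ, h1, hδ⟩ := ((t.eventually_le_const hε).and self_mem_nhdsWithin).exists
  replace hδ : 0 < δ := hδ
  obtain ⟨g, A, hg⟩ := exists_ker (μ := μ) hδ
  have hA := (hg.nn 0).trans (hg.le 0)
  have hp : ∀ x, ∃ p, Tendsto (fun j => mol μ g (w j) x) l (𝓝 p) := fun x => by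
    obtain ⟨p, -, hp⟩ := (isCompact_closedBall (0 : ℝ) C).ultrafilter_le_nhds
      (l.map fun j => mol μ g (w j) x) (le_principal_iff.2 (mem_map.2 (univ_mem' fun j =>
        mem_closedBall_zero_iff.2 (hg.bd (hb j) x))))
    exact ⟨p, hp⟩
  choose p hp using hp
  have hU : TendstoUniformlyOn (fun j => mol μ g (w j)) p l K := by
    refine unif (K := A * D.toReal) hK (by positivity) (.of_forall fun j x _ y _ => ?_)
      fun x _ => hp x
    rw [dist_eq_norm]
    refine convex_univ.norm_image_sub_le_of_norm_hasFDerivWithin_le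
      (fun z _ => (hg.der (hw j) (hc j) z).hasFDerivWithinAt) (fun z _ => ?_) trivial trivial
    rw [← ENNReal.ofReal_le_ofReal_iff (by positivity), ofReal_norm, ENNReal.ofReal_mul hA,
      ENNReal.ofReal_toReal hD]
    refine (enorm_integral_le_lintegral_enorm _).trans (le_trans ?_ (mul_le_mul_right (hd j) _))
    rw [← lintegral_sub_left_eq_self (fun y => ‖fderiv ℝ (w j) y‖ₑ) z,
      ← lintegral_const_mul' _ _ ENNReal.ofReal_ne_top]
    refine lintegral_mono fun y => ?_
    rw [enorm_smul, Real.enorm_of_nonneg (hg.nn y)]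
    exact mul_le_mul_left (ENNReal.ofReal_le_ofReal (hg.le y)) _
  have h2 := Metric.tendstoUniformlyOn_iff.1 hU (δ / 2) (by positivity)
  have hm : ∀ j, Measurable fun z => ‖w j z - mol μ g (w j) z‖ₑ := fun j =>
    ((hw j).continuous.sub (continuous_iff_continuousAt.2 fun z =>
      (hg.der (hw j) (hc j) z).continuousAt)).measurable.enorm
  have h3 : ∀ j, ∫⁻ z in K, ‖w j z - mol μ g (w j) z‖ₑ ∂μ ≤ ENNReal.ofReal δ * D := fun j =>
    (setLIntegral_le_lintegral _ _).trans ((hg.l1 (hw j)).trans (mul_le_mul_right (hd j) _))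
  filter_upwards [h2.prod_mk h2] with q hq
  refine le_trans ?_ h1
  rw [mul_add, mul_add]
  refine le_trans ?_ (add_le_add (add_le_add (h3 q.1) le_rfl) (h3 q.2))
  rw [← setLIntegral_const, ← lintegral_add_left (hm _), ← lintegral_add_right _ (hm _)]
  refine setLIntegral_mono' hK.measurableSet fun z hz => ?_
  have a := hq.1 z hz
  have b := hq.2 z hz
  rw [← ofReal_norm, ← ofReal_norm, ← ofReal_norm, ← ENNReal.ofReal_add (norm_nonneg _) hδ.le,
    ← ENNReal.ofReal_add (by positivity) (norm_nonneg _), ← dist_eq_norm, ← dist_eq_norm,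
    ← dist_eq_norm]
  refine ENNReal.ofReal_le_ofReal ?_
  linarith [dist_triangle4 (w q.1 z) (mol μ g (w q.1) z) (mol μ g (w q.2) z) (w q.2 z),
    dist_triangle_left (mol μ g (w q.1) z) (mol μ g (w q.2) z) (p z),
    dist_comm (w q.2 z) (mol μ g (w q.2) z)]

theorem relE {u : J → V → ℝ} {c : V} {r : ℝ} (hr : 0 < r)
    (hu : ∀ j, ∀ z ∈ closedBall c (2 * r), ContDiffAt ℝ 1 (u j) z ∧ ‖u j z‖ ≤ C) (hD : D ≠ ⊤)
    (hd : ∀ j, ∫⁻ z in closedBall c (2 * r), ‖fderiv ℝ (u j) z‖ₑ ∂μ ≤ D) :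
    Tendsto (fun p : J × J => ∫⁻ z in closedBall c r, ‖u p.1 z - u p.2 z‖ₑ ∂μ) (l ×ˢ l)
      (𝓝 0) := by
  let χ : ContDiffBump c := ⟨r, 2 * r, hr, by linarith⟩
  obtain ⟨w, hw⟩ : ∃ w : J → V → ℝ, ∀ j, w j = fun y => χ y • u j y := ⟨_, fun _ => rfl⟩
  have hz : ∀ j, ∀ y ∉ closedBall c (2 * r), w j =ᶠ[𝓝 y] fun _ => 0 := fun j y hy => by
    filter_upwards [isClosed_closedBall.isOpen_compl.mem_nhds hy] with x hx
    simp only [hw, χ.zero_of_le_dist (not_le.1 fun h => hx (mem_closedBall.2 h)).le, zero_smul]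
  have hw1 : ∀ j, ContDiff ℝ 1 (w j) := fun j => contDiff_iff_contDiffAt.2 fun y => by
    by_cases hy : y ∈ closedBall c (2 * r)
    · rw [hw]
      exact χ.contDiffAt.smul (hu j y hy).1
    · exact contDiffAt_const.congr_of_eventuallyEq (hz j y hy)
  obtain ⟨B, hB⟩ := (isCompact_closedBall c (2 * r)).exists_bound_of_continuousOn
    ((χ.contDiff (n := 1)).continuous_fderiv one_ne_zero).continuousOn
  have := relG (μ := μ) l (C := max C 0) (isCompact_closedBall c r) hw1
    (D := D + ENNReal.ofReal (C * B) * μ (closedBall c (2 * r)))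
    (fun j => HasCompactSupport.intro (isCompact_closedBall c (2 * r))
      fun y hy => (hz j y hy).eq_of_nhds) (fun j y => by
      by_cases hy : y ∈ closedBall c (2 * r)
      · rw [hw, norm_smul, Real.norm_of_nonneg χ.nonneg]
        exact (mul_le_of_le_one_left (norm_nonneg _) χ.le_one).trans
          ((hu j y hy).2.trans (le_max_left _ _))
      · rw [(hz j y hy).eq_of_nhds, norm_zero]
        exact le_max_right _ _)
    (ENNReal.add_ne_top.2 ⟨hD, ENNReal.mul_ne_top ENNReal.ofReal_ne_top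
      measure_closedBall_lt_top.ne⟩) fun j => by
      rw [← setLIntegral_eq_of_support_subset (s := closedBall c (2 * r)) fun y hy => by
        by_contra h
        exact hy (by
          beta_reduce
          rw [(hz j y h).fderiv_eq, fderiv_fun_const, Pi.zero_apply, ← ofReal_norm, norm_zero,
            ENNReal.ofReal_zero])]
      refine le_trans ?_ (add_le_add (hd j) le_rfl)
      rw [← setLIntegral_const, ← lintegral_add_right _ measurable_const]
      refine setLIntegral_mono' measurableSet_closedBall fun y hy => ?_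
      have h0 := (norm_nonneg _).trans (hu j y hy).2
      have h1 := (norm_nonneg _).trans (hB y hy)
      rw [hw, fderiv_fun_smul ((χ.contDiff (n := 1)).differentiable one_ne_zero y)
        ((hu j y hy).1.differentiableAt one_ne_zero), ← ofReal_norm, ← ofReal_norm,
        ← ENNReal.ofReal_add (norm_nonneg _) (by positivity)]
      refine ENNReal.ofReal_le_ofReal ((norm_add_le _ _).trans (add_le_add ?_ ?_))
      · rw [norm_smul, Real.norm_of_nonneg χ.nonneg]
        exact mul_le_of_le_one_left (norm_nonneg _) χ.le_one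
      · rw [ContinuousLinearMap.norm_smulRight_apply, mul_comm]
        exact mul_le_mul (hu j y hy).2 (hB y hy) (norm_nonneg _) h0
  refine this.congr fun p => setLIntegral_congr_fun measurableSet_closedBall fun y hy => ?_
  simp only [hw, χ.one_of_mem_closedBall hy, one_smul]

end euc

open Pool.Agent.Lib.SV (E)
open Pool.Agent.Lib.HS32 Pool.Agent.Lib.HS.Locp Complex

variable {n : ℕ} {M : Mf n} [M.Cpt] {H : M.Fam (Mat n)} {J : Type*}

theorem fd_le {u : E n → ℝ} {z : E n} (hu : ContDiffAt ℝ ∞ u z) {A : ℝ} (hA : 0 ≤ A)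
    (h : ∀ j, ‖dzb j (fun w => (u w : ℂ)) z‖ ≤ A) : ‖fderiv ℝ u z‖ ≤ 2 * n * A := by
  refine ContinuousLinearMap.opNorm_le_bound _ (by positivity) fun v => ?_
  rw [← norm_real, ← fderiv_ofReal (cd_diff hu), fderiv_eq_sum]
  refine (norm_sum_le _ _).trans ((Finset.sum_le_sum (g := fun _ => A * ‖v‖ + A * ‖v‖)
    fun j _ => (norm_add_le _ _).trans ?_).trans (le_of_eq ?_))
  · rw [norm_mul, norm_mul, norm_star, ← star_dzb_ofReal (cd_diff (cd_ofReal hu)), norm_star]
    have := mul_le_mul (h j) (norm_le_pi_norm v j) (norm_nonneg _) hA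
    exact add_le_add this this
  · simp only [Finset.sum_const, Finset.card_univ, Fintype.card_fin, nsmul_eq_mul]
    ring

/-- The Cauchy property in the mean. -/
theorem rel_lim (hH : M.Met H) (l : Ultrafilter J) {u : J → M.X → ℝ} {C : ℝ}
    (hu : ∀ a, M.Sm (u a)) (hb : ∀ a x, |u a x| ≤ C)
    (hd : ∀ a, ∫ x, √(M.gr H (u a) (u a) x) ∂M.mu H ≤ C) :
    Tendsto (fun p : J × J => ∫⁻ x, ‖u p.1 x - u p.2 x‖ₑ ∂M.mu H) (l ×ˢ l) (𝓝 0) := by
  have loc : ∀ x, ∃ U ∈ 𝓝 x,
      Tendsto (fun p : J × J => ∫⁻ y in U, ‖u p.1 y - u p.2 y‖ₑ ∂M.mu H) (l ×ˢ l) (𝓝 0) := by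
    intro x
    obtain ⟨he, hx⟩ := (mTR n M).1 x
    set e := M.ch x
    obtain ⟨ρ, hρ, hs⟩ :=
      nhds_basis_closedBall.mem_iff.1 (e.open_target.mem_nhds (e.map_source hx))
    obtain ⟨A, hA, hb'⟩ := (mBD n M H hH).2.2.1 e he _ (isCompact_closedBall _ ρ) hs
    obtain ⟨C4, hC4, hc⟩ := chart_le mMU mBD hH he (isCompact_closedBall _ ρ) hs
    have e2 : 2 * (ρ / 2) = ρ := by ring
    have s2 : closedBall (e x) (ρ / 2) ⊆ closedBall (e x) ρ :=
      closedBall_subset_closedBall (by linarith)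
    have hL := relE (μ := volume) l (u := fun a => u a ∘ e.symm) (c := e x) (r := ρ / 2) (C := C)
      (D := ENNReal.ofReal (C4 * (2 * n * √A * C))) (by positivity)
      (fun a z hz => ⟨cd_le (hu a e he z (hs (e2 ▸ hz))) 1, hb a _⟩) ENNReal.ofReal_ne_top
      fun a => by
        have hg := ((mTR n M).2.2.2.1 ℝ _).1 ((mLAP n M _ _ (hu a) (hu a)).2.2 H hH).2.1
        have h1 := hc (fun y => 2 * n * √A * √(M.gr H (u a) (u a) y))
          (fun z => (‖fderiv ℝ (u a ∘ e.symm) z‖ : ℝ)) (by fun_prop) (fun y => by positivity)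
          fun z hz => by
            rw [norm_real, norm_norm, mul_assoc (2 * n : ℝ)]
            exact fd_le (hu a e he z (hs hz)) (by positivity) fun j =>
              RB.R21.dzb_le hH he (hs hz) (by linarith) (hb' z hz).2.1 (hu a) j
        rw [integral_const_mul] at h1
        rw [e2]
        refine le_trans (le_of_eq (lintegral_congr fun z => ?_)) (h1.trans
          (ENNReal.ofReal_le_ofReal (mul_le_mul_of_nonneg_left
            (mul_le_mul_of_nonneg_left (hd a) (by positivity)) hC4)))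
        rw [← ofReal_norm, ← ofReal_norm, norm_real, norm_norm]
    refine ⟨e.symm '' closedBall (e x) (ρ / 2), ?_, ?_⟩
    · have := e.symm.image_mem_nhds (e.map_source hx) (closedBall_mem_nhds (e x) (half_pos hρ))
      rwa [e.left_inv hx] at this
    · have lim := ENNReal.Tendsto.const_mul (a := ENNReal.ofReal A) hL
        (Or.inr ENNReal.ofReal_ne_top)
      rw [mul_zero] at lim
      refine tendsto_of_tendsto_of_tendsto_of_le_of_le tendsto_const_nhds lim (fun _ => zero_le)
        fun p => ?_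
      rw [((mMU n M H hH).2.2.2.2.2.1 e he _ measurableSet_closedBall (s2.trans hs)).2.1,
        ← lintegral_const_mul' _ _ ENNReal.ofReal_ne_top]
      exact setLIntegral_mono' measurableSet_closedBall fun z hz =>
        mul_le_mul_left (ENNReal.ofReal_le_ofReal (hb' z (s2 hz)).2.2.2) _
  choose U hU hT using loc
  obtain ⟨t, ht⟩ := CompactSpace.elim_nhds_subcover U hU
  have lim := tendsto_finsetSum (Finset.univ : Finset t) fun a _ => hT a
  rw [Finset.sum_const_zero] at lim
  refine tendsto_of_tendsto_of_tendsto_of_le_of_le tendsto_const_nhds lim (fun _ => zero_le)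
    fun p => ?_
  have e : (⋃ a : t, U a) = univ := by
    rw [iUnion_subtype]
    exact ht
  have := lintegral_iUnion_le (μ := M.mu H) (fun a : t => U a) fun y => ‖u p.1 y - u p.2 y‖ₑ
  rwa [e, Measure.restrict_univ, tsum_fintype] at this

/-- A large set of indices on which the family has small diameter in the mean. -/
theorem rel (hH : M.Met H) (l : Ultrafilter J) {u : J → M.X → ℝ} {C θ : ℝ}
    (hu : ∀ a, M.Sm (u a)) (hb : ∀ a x, |u a x| ≤ C)
    (hd : ∀ a, ∫ x, √(M.gr H (u a) (u a) x) ∂M.mu H ≤ C) (hθ : 0 < θ) :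
    ∃ I ∈ l, ∀ a ∈ I, ∀ b ∈ I, ∫ x, |u a x - u b x| ∂M.mu H ≤ θ := by
  have h := (rel_lim hH l hu hb hd).eventually_le_const (ENNReal.ofReal_pos.2 hθ)
  obtain ⟨I, hI, h1⟩ := mem_prod_self_iff.1 h
  refine ⟨I, hI, fun a ha b hb => ?_⟩
  have h2 : ∫⁻ x, ‖u a x - u b x‖ₑ ∂M.mu H ≤ ENNReal.ofReal θ := h1 (mk_mem_prod ha hb)
  have h3 := ENNReal.toReal_le_of_le_ofReal hθ.le h2
  rwa [← integral_norm_eq_lintegral_enorm (f := fun x => u a x - u b x) ((((mTR n M).2.2.2.1 ℝ _).1 (hu a)).sub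
    (((mTR n M).2.2.2.1 ℝ _).1 (hu b))).aestronglyMeasurable] at h3

end Pool.Agent.Lib.HW95
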