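import Pool.Agent.Lib.HS32.B_BD

/-! Holomorphic gauge: up to order two a real function is the sum of the real part of a
holomorphic function and of its Levi form, uniformly on compact sets. -/

open scoped Classical Topology ENNReal ContDiff ComplexOrder Matrix
open Set MeasureTheory Complex Metric Filter

noncomputable section

namespace Pool.Agent.Lib.HW95

open Pool.Agent.Lib.SV (E)
open Pool.Agent.Lib.HS32 Pool.Agent.Lib.HS32.BBD

variable {n : ℕ}

/-- Uniform continuity near a compact set. -/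
theorem unif {F : Type} [PseudoMetricSpace F] {U K : Set (E n)} {f : E n → F} (hU : IsOpen U)
    (hK : IsCompact K) (hKU : K ⊆ U) (hf : ∀ z ∈ U, ContinuousAt f z) {ε : ℝ} (hε : 0 < ε) :
    ∃ δ, 0 < δ ∧ ∀ y ∈ K, closedBall y δ ⊆ U ∧ ∀ z ∈ closedBall y δ, dist (f z) (f y) < ε := by
  obtain ⟨δ, hδ, hs⟩ := hK.exists_cthickening_subset_open hU hKU
  have hc := (hK.cthickening (r := δ)).uniformContinuousOn_of_continuous (f := f)
    fun z hz => (hf z (hs hz)).continuousWithinAt
  obtain ⟨η, hη, h⟩ := Metric.uniformContinuousOn_iff.1 hc ε hε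
  refine ⟨min δ (η / 2), by positivity, fun y hy => ?_⟩
  have h1 : closedBall y (min δ (η / 2)) ⊆ cthickening δ K :=
    (closedBall_subset_closedBall (min_le_left _ _)).trans (closedBall_subset_cthickening hy δ)
  refine ⟨h1.trans hs, fun z hz => h z (h1 hz) y (self_subset_cthickening K hy) ?_⟩
  exact lt_of_le_of_lt (mem_closedBall.1 hz) ((min_le_right _ _).trans_lt (by linarith))

theorem line {u : E n → ℂ} {y t : E n} {τ : ℝ} (hu : DifferentiableAt ℝ u (y + τ • t)) :
    HasDerivAt (fun τ : ℝ => u (y + τ • t))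
      (∑ j, (dz j u (y + τ • t) * t j + dzb j u (y + τ • t) * star (t j))) τ := by
  rw [← fderiv_eq_sum]
  have h : HasDerivAt (fun τ : ℝ => y + τ • t) t τ := by
    simpa using ((hasDerivAt_id τ).smul_const t).const_add y
  exact hu.hasFDerivAt.comp_hasDerivAt τ h

/-- The gauge. -/
theorem gauge {U K : Set (E n)} {Φ : E n → ℝ} (hU : IsOpen U) (hK : IsCompact K) (hKU : K ⊆ U)
    (hΦ : ∀ z ∈ U, ContDiffAt ℝ ∞ Φ z) {ε : ℝ} (hε : 0 < ε) :
    ∃ δ, 0 < δ ∧ ∀ y ∈ K, closedBall y δ ⊆ U ∧ ∃ p : E n → ℂ, Differentiable ℂ p ∧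
      ∀ z ∈ closedBall y δ, |Φ z - 2 * (p z).re - nq (hess (fun w => (Φ w : ℂ)) y) (z - y)| ≤
        ε * ‖z - y‖ ^ 2 := by
  set f : E n → ℂ := fun w => (Φ w : ℂ) with hf
  have sf : ∀ z ∈ U, ContDiffAt ℝ ∞ f z := fun z hz => cd_ofReal (hΦ z hz)
  set η : ℝ := ε / (4 * (n ^ 2 + 1)) with hη
  have hη0 : 0 < η := by positivity
  obtain ⟨δ, hδ, h⟩ := unif (f := fun w (i j : Fin n) => (dz i (dz j f) w, dzb i (dz j f) w))
    hU hK hKU (fun z hz => continuousAt_pi.2 fun i => continuousAt_pi.2 fun j =>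
      (cd_dz (cd_dz (sf z hz) j) i).continuousAt.prodMk
        (cd_dzb (cd_dz (sf z hz) j) i).continuousAt) hη0
  refine ⟨δ, hδ, fun y hy => ⟨(h y hy).1, fun z => f y / 2 + ∑ j, dz j f y * (z j - y j) +
    (∑ j, (∑ i, dz i (dz j f) y * (z i - y i)) * (z j - y j)) / 2, by fun_prop, fun z hz => ?_⟩⟩
  obtain ⟨h1, h2⟩ := h y hy
  obtain ⟨t, rfl⟩ : ∃ t, z = y + t := ⟨z - y, by abel⟩
  have ht : ‖t‖ ≤ δ := by simpa using hz
  have hm : ∀ τ ∈ Icc (0 : ℝ) 1, y + τ • t ∈ closedBall y δ := fun τ hτ => by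
    rw [mem_closedBall, dist_eq_norm, add_sub_cancel_left, norm_smul, Real.norm_of_nonneg hτ.1]
    nlinarith [hτ.1, hτ.2, norm_nonneg t]
  set c : ℝ → ℂ := fun τ => ∑ j, dz j f (y + τ • t) * t j with hc
  set d : E n → ℂ := fun w =>
    ∑ j, (∑ i, (dz i (dz j f) w * t i + dzb i (dz j f) w * star (t i))) * t j with hd
  have c1 : ∀ τ ∈ Icc (0 : ℝ) 1, HasDerivAt c (d (y + τ • t)) τ := fun τ hτ =>
    HasDerivAt.fun_sum fun j _ => (line (cd_diff (cd_dz (sf _ (h1 (hm τ hτ))) j))).mul_const _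
  have d1 : ∀ w ∈ closedBall y δ, ‖d w - d y‖ ≤ ε / 2 * ‖t‖ ^ 2 := fun w hw => by
    have e : d w - d y = ∑ j, ∑ i, ((dz i (dz j f) w - dz i (dz j f) y) * t i +
        (dzb i (dz j f) w - dzb i (dz j f) y) * star (t i)) * t j := by
      simp only [hd, ← Finset.sum_sub_distrib, Finset.sum_mul]
      exact Finset.sum_congr rfl fun j _ => Finset.sum_congr rfl fun i _ => by ring
    have b : ∀ j i : Fin n, ‖((dz i (dz j f) w - dz i (dz j f) y) * t i +
        (dzb i (dz j f) w - dzb i (dz j f) y) * star (t i)) * t j‖ ≤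
        (η * ‖t‖ + η * ‖t‖) * ‖t‖ := fun j i => by
      have h3 := (dist_pi_le_iff hη0.le).1 ((dist_pi_le_iff hη0.le).1 (h2 w hw).le i) j
      rw [Prod.dist_eq, max_le_iff, dist_eq_norm, dist_eq_norm] at h3
      rw [norm_mul]
      refine mul_le_mul ((norm_add_le _ _).trans ?_) (norm_le_pi_norm t j) (norm_nonneg _)
        (by positivity)
      rw [norm_mul, norm_mul, norm_star]
      have := norm_le_pi_norm t i
      gcongr
      exacts [h3.1, h3.2]
    rw [e]
    refine (norm_sum_le _ _).trans ((Finset.sum_le_sum fun j _ => (norm_sum_le _ _).trans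
      (Finset.sum_le_sum fun i _ => b j i)).trans ?_)
    simp only [Finset.sum_const, Finset.card_univ, Fintype.card_fin, nsmul_eq_mul]
    have e2 : ε / 2 = 2 * (n ^ 2 + 1) * η := by
      rw [hη]
      field_simp
      ring
    rw [e2]
    nlinarith [mul_nonneg hη0.le (sq_nonneg ‖t‖)]
  have c2 : ∀ τ ∈ Icc (0 : ℝ) 1, ‖c τ - c 0 - τ * d y‖ ≤ ε / 2 * ‖t‖ ^ 2 := fun τ hτ => by
    have h3 := norm_image_sub_le_of_norm_deriv_le_segment' (a := 0) (b := 1)
      (f := fun σ : ℝ => c σ - σ * d y) (f' := fun σ => d (y + σ • t) - d y)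
      (C := ε / 2 * ‖t‖ ^ 2) (fun σ hσ => by
        have := (c1 σ hσ).sub ((hasDerivAt_id σ).ofReal_comp.mul_const (d y))
        simp only [ofReal_one, one_mul] at this
        exact this.hasDerivWithinAt)
      (fun σ hσ => d1 _ (hm σ (Ico_subset_Icc_self hσ))) τ hτ
    simp only [ofReal_zero, zero_mul, sub_zero] at h3
    rw [sub_right_comm]
    exact h3.trans (mul_le_of_le_one_right (by positivity) hτ.2)
  have p1 : ∀ τ ∈ Icc (0 : ℝ) 1, HasDerivAt (fun τ : ℝ => Φ (y + τ • t)) (2 * (c τ).re) τ :=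
    fun τ hτ => by
      have s1 := cd_diff (sf _ (h1 (hm τ hτ)))
      have h3 := reCLM.hasFDerivAt.comp_hasDerivAt τ (line s1)
      refine HasDerivAt.congr_deriv h3 ?_
      simp only [reCLM_apply, hc, re_sum, Finset.mul_sum, add_re]
      refine Finset.sum_congr rfl fun j _ => ?_
      rw [← star_dz_ofReal s1, ← star_mul', two_mul]
      rfl
  have h3 := norm_image_sub_le_of_norm_deriv_le_segment_01'
    (f := fun σ : ℝ => Φ (y + σ • t) - 2 * (c 0).re * σ - (d y).re * σ ^ 2)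
    (f' := fun σ => 2 * (c σ - c 0 - σ * d y).re) (C := ε * ‖t‖ ^ 2) (fun σ hσ => by
      refine (HasDerivAt.congr_deriv (((p1 σ hσ).sub
        ((hasDerivAt_id σ).const_mul (2 * (c 0).re))).sub
        ((hasDerivAt_pow 2 σ).const_mul (d y).re)) ?_).hasDerivWithinAt
      simp only [sub_re, re_ofReal_mul]
      norm_num
      ring)
    (fun σ hσ => by
      have := (abs_re_le_norm _).trans (c2 σ (Ico_subset_Icc_self hσ))
      rw [Real.norm_eq_abs, abs_mul, abs_two]
      linarith)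
  rw [Real.norm_eq_abs] at h3
  simp only [add_sub_cancel_left, Pi.add_apply]
  refine le_of_eq_of_le (congrArg _ ?_) h3
  have e1 : (d y).re = (∑ j, (∑ i, dz i (dz j f) y * t i) * t j).re + nq (hess f y) t := by
    simp only [hd, nq, dotProduct, Matrix.mulVec, hess_apply, Finset.sum_add_distrib, add_mul,
      add_re, Finset.mul_sum, Pi.star_apply]
    congr 2
    simp only [Finset.sum_mul]
    rw [Finset.sum_comm]
    exact Finset.sum_congr rfl fun i _ => Finset.sum_congr rfl fun j _ => by ring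
  simp only [e1, hc, add_re, div_ofNat_re, hf, ofReal_re, one_smul, zero_smul, add_zero]
  ring

end Pool.Agent.Lib.HW95
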